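import Pool.Agent.H34.L.H581.KS.Defs

/-!
KS-AA (MP_c890a7_co): in the half graph, `a i` precedes `a j` (`i < j`) with probability at least
`1/2 + 1/(8 r^2)`.
-/

set_option autoImplicit false

open Finset

namespace Pool.Agent.H581.KS

open Pool.Agent.H931R3.Bal HG

namespace AA

variable {r : ℕ}

theorem lt_cases {x y : HG r} (h : x < y) : ∃ k l : Fin r, x = a k ∧ y = b l ∧ k ≤ l := by
  cases x with
  | a k =>
    cases y with
    | a l => exact absurd (congrArg HG.a (a_le_a.1 h.le)) h.ne
    | b l => exact ⟨k, l, rfl, rfl, a_le_b.1 h.le⟩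
  | b k =>
    cases y with
    | a l => exact absurd h.le b_le_a
    | b l => exact absurd (congrArg HG.b (b_le_b.1 h.le)) h.ne

theorem lt_of_le {k l : Fin r} (h : k ≤ l) : (a k : HG r) < b l :=
  lt_of_le_of_ne (a_le_b.2 h) (by simp)

/-- swapping `a i` and `a j` -/
theorem swap_mono {i j : Fin r} (h : i < j) (f : LEn (HG r) (2 * r))
    (hf : f.1 (a j) < f.1 (a i)) :
    Monotone ((Equiv.swap (a i) (a j)).trans f.1) := by
  apply mono_of_lt
  intro x y hxy
  obtain ⟨k, l, rfl, rfl, hkl⟩ := lt_cases hxy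
  have hb : Equiv.swap (a i) (a j) (b l) = (b l : HG r) :=
    Equiv.swap_apply_of_ne_of_ne (by simp) (by simp)
  rw [Equiv.trans_apply, Equiv.trans_apply, hb]
  by_cases hki : k = i
  · subst hki
    rw [Equiv.swap_apply_left]
    exact hf.trans (lt_of_mono f.2 (lt_of_le hkl))
  by_cases hkj : k = j
  · subst hkj
    rw [Equiv.swap_apply_right]
    exact lt_of_mono f.2 (lt_of_le (h.le.trans hkl))
  · rw [Equiv.swap_apply_of_ne_of_ne (by simpa using hki) (by simpa using hkj)]
    exact lt_of_mono f.2 (lt_of_le hkl)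

theorem step1 {i j : Fin r} (h : i < j) :
    (univ.filter (fun f : LEn (HG r) (2 * r) => f.1 (a j) < f.1 (a i))).card +
      (univ.filter (fun f : LEn (HG r) (2 * r) => f.1 (b i) < f.1 (a j))).card ≤
      (univ.filter (fun f : LEn (HG r) (2 * r) => f.1 (a i) < f.1 (a j))).card := by
  classical
  let F : LEn (HG r) (2 * r) → LEn (HG r) (2 * r) := fun f =>
    if hf : f.1 (a j) < f.1 (a i) then ⟨(Equiv.swap (a i) (a j)).trans f.1, swap_mono h f hf⟩
    else f
  have hF : ∀ f : LEn (HG r) (2 * r), f.1 (a j) < f.1 (a i) →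
      (F f).1 = (Equiv.swap (a i) (a j)).trans f.1 := by
    intro f hf
    simp only [F, dif_pos hf]
  have hinj : Set.InjOn F
      ((univ.filter (fun f : LEn (HG r) (2 * r) => f.1 (a j) < f.1 (a i)) :
        Finset (LEn (HG r) (2 * r))) : Set (LEn (HG r) (2 * r))) := by
    intro f hf g hg hfg
    have hf' : f.1 (a j) < f.1 (a i) := by simpa using hf
    have hg' : g.1 (a j) < g.1 (a i) := by simpa using hg
    have h1 : (F f).1 = (F g).1 := by rw [hfg]
    rw [hF f hf', hF g hg'] at h1
    apply Subtype.ext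
    apply Equiv.ext
    intro x
    have h2 := congrArg (fun e : HG r ≃ Fin (2 * r) => e (Equiv.swap (a i) (a j) x)) h1
    simpa using h2
  rw [← Finset.card_image_of_injOn hinj, ← Finset.card_union_of_disjoint]
  · apply Finset.card_le_card
    intro g hg
    rw [Finset.mem_union] at hg
    rcases hg with hg | hg
    · rw [Finset.mem_image] at hg
      obtain ⟨f, hf, rfl⟩ := hg
      have hf' : f.1 (a j) < f.1 (a i) := by simpa using hf
      rw [Finset.mem_filter]
      refine ⟨Finset.mem_univ _, ?_⟩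
      rw [hF f hf', Equiv.trans_apply, Equiv.trans_apply, Equiv.swap_apply_left,
        Equiv.swap_apply_right]
      exact hf'
    · rw [Finset.mem_filter] at hg ⊢
      exact ⟨Finset.mem_univ _, (lt_of_mono g.2 (lt_of_le le_rfl)).trans hg.2⟩
  · rw [Finset.disjoint_left]
    intro g hg hg2
    rw [Finset.mem_image] at hg
    obtain ⟨f, hf, rfl⟩ := hg
    have hf' : f.1 (a j) < f.1 (a i) := by simpa using hf
    rw [Finset.mem_filter] at hg2
    have h3 := hg2.2
    rw [hF f hf', Equiv.trans_apply, Equiv.trans_apply, Equiv.swap_apply_right,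
      Equiv.swap_apply_of_ne_of_ne (by simp) (by simp)] at h3
    exact lt_asymm h3 (lt_of_mono f.2 (lt_of_le le_rfl))

/-- moving `b i` and `a j` just before the first `b k`, `k ≥ j` -/
theorem exists_move {i j : Fin r} (h : i < j) (f : LEn (HG r) (2 * r)) :
    ∃ g : LEn (HG r) (2 * r), g.1 (b i) < g.1 (a j) ∧
      ∀ x y : HG r, x ∉ ({b i, a j} : Set (HG r)) → y ∉ ({b i, a j} : Set (HG r)) →
        (g.1 x < g.1 y ↔ f.1 x < f.1 y) := by
  classical
  obtain ⟨k0, hk0, hmin⟩ := Finset.exists_min_image (univ.filter (fun k : Fin r => j ≤ k))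
    (fun k => f.1 (b k)) ⟨j, by simp⟩
  have hjk : j ≤ k0 := by simpa using hk0
  have hmin' : ∀ k : Fin r, j ≤ k → f.1 (b k0) ≤ f.1 (b k) := fun k hk => hmin k (by simpa using hk)
  set T : ℕ := (f.1 (b k0) : ℕ) with hT
  have hTpos : 0 < T := by
    have h1 : f.1 (a k0) < f.1 (b k0) := lt_of_mono f.2 (lt_of_le le_rfl)
    have h2 : ((f.1 (a k0) : Fin (2 * r)) : ℕ) < ((f.1 (b k0) : Fin (2 * r)) : ℕ) := h1
    omega
  let G : HG r → ℕ := fun x => if x = b i then 3 * T - 2 else if x = a j then 3 * T - 1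
    else 3 * ((f.1 x : Fin (2 * r)) : ℕ)
  have Gb : G (b i) = 3 * T - 2 := by simp [G]
  have Ga : G (a j) = 3 * T - 1 := by simp [G]
  have Go : ∀ x : HG r, x ≠ b i → x ≠ a j → G x = 3 * ((f.1 x : Fin (2 * r)) : ℕ) := by
    intro x h1 h2
    simp only [G, if_neg h1, if_neg h2]
  have Ginj : Function.Injective G := by
    intro x y hxy
    by_cases h1 : x = b i
    · by_cases h2 : y = b i
      · rw [h1, h2]
      · by_cases h3 : y = a j
        · rw [h1, h3, Gb, Ga] at hxy; omega
        · rw [h1, Gb, Go y h2 h3] at hxy; omega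
    · by_cases h1' : x = a j
      · by_cases h2 : y = b i
        · rw [h1', h2, Gb, Ga] at hxy; omega
        · by_cases h3 : y = a j
          · rw [h1', h3]
          · rw [h1', Ga, Go y h2 h3] at hxy; omega
      · by_cases h2 : y = b i
        · rw [Go x h1 h1', h2, Gb] at hxy; omega
        · by_cases h3 : y = a j
          · rw [Go x h1 h1', h3, Ga] at hxy; omega
          · rw [Go x h1 h1', Go y h2 h3] at hxy
            apply f.1.injective
            apply Fin.ext
            omega
  obtain ⟨σ, hσ⟩ := exists_rank G Ginj (card_HG r)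
  have hmono : Monotone σ := by
    apply mono_of_lt
    intro x y hxy
    obtain ⟨k, l, rfl, rfl, hkl⟩ := lt_cases hxy
    rw [hσ]
    by_cases hkj : k = j
    · subst hkj
      have hl : (b l : HG r) ≠ b i := by
        intro he
        have : l = i := by simpa using he
        rw [this] at hkl
        exact absurd h (not_lt.2 hkl)
      rw [Ga, Go (b l) hl (by simp)]
      have h4 : ((f.1 (b k0) : Fin (2 * r)) : ℕ) ≤ ((f.1 (b l) : Fin (2 * r)) : ℕ) := hmin' l hkl
      omega
    · have hk1 : (a k : HG r) ≠ a j := by simpa using hkj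
      rw [Go (a k) (by simp) hk1]
      by_cases hl : l = i
      · subst hl
        rw [Gb]
        have h5 : f.1 (a k) < f.1 (b k0) :=
          lt_of_mono f.2 (lt_of_le (hkl.trans (h.le.trans hjk)))
        have h6 : ((f.1 (a k) : Fin (2 * r)) : ℕ) < ((f.1 (b k0) : Fin (2 * r)) : ℕ) := h5
        omega
      · rw [Go (b l) (by simpa using hl) (by simp)]
        have h5 : f.1 (a k) < f.1 (b l) := lt_of_mono f.2 (lt_of_le hkl)
        have h6 : ((f.1 (a k) : Fin (2 * r)) : ℕ) < ((f.1 (b l) : Fin (2 * r)) : ℕ) := h5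
        omega
  refine ⟨⟨σ, hmono⟩, ?_, ?_⟩
  · show σ (b i) < σ (a j)
    rw [hσ, Ga, Gb]
    omega
  · intro x y hx hy
    show σ x < σ y ↔ _
    simp only [Set.mem_insert_iff, Set.mem_singleton_iff, not_or] at hx hy
    rw [hσ, Go x hx.1 hx.2, Go y hy.1 hy.2, Fin.lt_def]
    omega

theorem step2 {i j : Fin r} (h : i < j) :
    Fintype.card (LEn (HG r) (2 * r)) ≤
      (univ.filter (fun f : LEn (HG r) (2 * r) => f.1 (b i) < f.1 (a j))).card *
        (2 * r * (2 * r)) := by
  classical
  choose M hM1 hM2 using fun f : LEn (HG r) (2 * r) => exists_move h f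
  have hinj : Function.Injective (fun f : LEn (HG r) (2 * r) =>
      ((M f, (f.1 (b i), f.1 (a j))) :
        LEn (HG r) (2 * r) × (Fin (2 * r) × Fin (2 * r)))) := by
    intro f g hfg
    simp only [Prod.mk.injEq] at hfg
    obtain ⟨h1, h2, h3⟩ := hfg
    apply Subtype.ext
    apply det f.1 g.1 ({b i, a j} : Set (HG r))
    · intro x hx
      simp only [Set.mem_insert_iff, Set.mem_singleton_iff] at hx
      rcases hx with rfl | rfl
      · exact h2
      · exact h3
    · intro x y hx hy hxy
      rw [← hM2 g x y hx hy, ← h1, hM2 f x y hx hy]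
      exact hxy
  have h1 : Fintype.card (LEn (HG r) (2 * r)) = (univ : Finset (LEn (HG r) (2 * r))).card :=
    Finset.card_univ.symm
  rw [h1, ← Finset.card_image_of_injective _ hinj]
  have h2 : ((univ : Finset (LEn (HG r) (2 * r))).image (fun f : LEn (HG r) (2 * r) =>
      ((M f, (f.1 (b i), f.1 (a j))) :
        LEn (HG r) (2 * r) × (Fin (2 * r) × Fin (2 * r))))) ⊆
      (univ.filter (fun f : LEn (HG r) (2 * r) => f.1 (b i) < f.1 (a j))) ×ˢ
        (univ : Finset (Fin (2 * r) × Fin (2 * r))) := by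
    intro z hz
    rw [Finset.mem_image] at hz
    obtain ⟨f, _, rfl⟩ := hz
    rw [Finset.mem_product]
    exact ⟨Finset.mem_filter.2 ⟨Finset.mem_univ _, hM1 f⟩, Finset.mem_univ _⟩
  refine (Finset.card_le_card h2).trans ?_
  rw [Finset.card_product, Finset.card_univ, Fintype.card_prod, Fintype.card_fin]

end AA

open AA in
theorem pr_aa {r : ℕ} (i j : Fin r) (h : i < j) :
    1 / 2 + 1 / (8 * (r : ℝ) ^ 2) ≤ pr (HG r) (2 * r) (a i) (a j) := by
  classical
  have hr : 0 < r := lt_of_le_of_lt (Nat.zero_le _) i.2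
  have hr' : (0 : ℝ) < r := by exact_mod_cast hr
  have s1 := step1 h
  have s2 := step2 h
  have s3 : (univ.filter (fun f : LEn (HG r) (2 * r) => f.1 (a i) < f.1 (a j))).card +
      (univ.filter (fun f : LEn (HG r) (2 * r) => f.1 (a j) < f.1 (a i))).card =
      Fintype.card (LEn (HG r) (2 * r)) := by
    rw [← Finset.card_univ, ← Finset.card_union_of_disjoint]
    · congr 1
      ext f
      simp only [Finset.mem_union, Finset.mem_filter, Finset.mem_univ, true_and, iff_true]
      rcases lt_trichotomy (f.1 (a i)) (f.1 (a j)) with h1 | h1 | h1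
      · exact Or.inl h1
      · exact absurd (f.1.injective h1) (by simpa using h.ne)
      · exact Or.inr h1
    · rw [Finset.disjoint_left]
      intro f h1 h2
      rw [Finset.mem_filter] at h1 h2
      exact lt_asymm h1.2 h2.2
  have hN : (0 : ℝ) < Fintype.card (LEn (HG r) (2 * r)) := by
    have := LEn_nonempty (card_HG r)
    exact_mod_cast Fintype.card_pos
  unfold pr
  rw [Finset.sum_boole]
  set N : ℕ := Fintype.card (LEn (HG r) (2 * r))
  set A : ℕ := (univ.filter (fun f : LEn (HG r) (2 * r) => f.1 (a i) < f.1 (a j))).card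
  set B : ℕ := (univ.filter (fun f : LEn (HG r) (2 * r) => f.1 (a j) < f.1 (a i))).card
  set X : ℕ := (univ.filter (fun f : LEn (HG r) (2 * r) => f.1 (b i) < f.1 (a j))).card
  have t1 : (B : ℝ) + X ≤ A := by exact_mod_cast s1
  have t2 : (N : ℝ) ≤ X * (2 * r * (2 * r)) := by exact_mod_cast s2
  have t3 : (A : ℝ) + B = N := by exact_mod_cast s3
  rw [le_div_iff₀ hN]
  have t4 : (N : ℝ) / (8 * (r : ℝ) ^ 2) ≤ X / 2 := by
    rw [div_le_iff₀ (by positivity)]
    nlinarith
  have t5 : (1 / 2 + 1 / (8 * (r : ℝ) ^ 2)) * (N : ℝ) = N / 2 + (N : ℝ) / (8 * (r : ℝ) ^ 2) := by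
    ring
  rw [t5]
  linarith

end Pool.Agent.H581.KS
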