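import Mathlib
import Pool.Agent.H34.L.H581.KS.Defs

/-! KS-CNT2: linear extensions of the half graph with a fixed first element. -/

set_option autoImplicit false

open Finset

namespace Pool.Agent.H581.KS

open Pool.Agent.H931R3.Bal HG

namespace Cnt2

/-- removing the pair `a i, b i` -/
def emb {r : ℕ} (i : Fin (r + 1)) : HG r → HG (r + 1)
  | a k => a (i.succAbove k)
  | b k => b (i.succAbove k)

lemma emb_le {r : ℕ} (i : Fin (r + 1)) {x y : HG r} (h : x ≤ y) : emb i x ≤ emb i y := by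
  rcases x with x | x <;> rcases y with y | y
  · exact congrArg _ h
  · exact (i.strictMono_succAbove.monotone h : i.succAbove x ≤ i.succAbove y)
  · exact absurd h id
  · exact congrArg _ h

lemma emb_inj {r : ℕ} (i : Fin (r + 1)) : Function.Injective (emb i) := by
  intro x y h
  rcases x with x | x <;> rcases y with y | y
  · simp only [emb, a.injEq] at h
    rw [Fin.succAbove_right_injective h]
  · simp [emb] at h
  · simp [emb] at h
  · simp only [emb, b.injEq] at h
    rw [Fin.succAbove_right_injective h]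

lemma emb_surj {r : ℕ} (i : Fin (r + 1)) (x : HG (r + 1)) (h1 : x ≠ a i) (h2 : x ≠ b i) :
    ∃ y, emb i y = x := by
  rcases x with x | x
  · obtain ⟨z, hz⟩ := Fin.exists_succAbove_eq (x := x) (y := i) (fun h => h1 (by rw [h]))
    exact ⟨a z, by simp [emb, hz]⟩
  · obtain ⟨z, hz⟩ := Fin.exists_succAbove_eq (x := x) (y := i) (fun h => h2 (by rw [h]))
    exact ⟨b z, by simp [emb, hz]⟩

lemma exists_rk {r : ℕ} (i : Fin (r + 1)) (f : LEn (HG (r + 1)) (2 * (r + 1))) :
    ∃ g : LEn (HG r) (2 * r), ∀ x y, g.1 x < g.1 y ↔ f.1 (emb i x) < f.1 (emb i y) := by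
  obtain ⟨σ, hσ⟩ := exists_rank (fun x : HG r => f.1 (emb i x))
    (fun x y h => emb_inj i (f.1.injective h)) (card_HG r)
  refine ⟨⟨σ, mono_of_lt fun x y h => (hσ x y).2 ?_⟩, hσ⟩
  exact lt_of_mono f.2 (lt_of_le_of_ne (emb_le i h.le) fun he => h.ne (emb_inj i he))

end Cnt2

open Cnt2 in
theorem card_first (r : ℕ) (i : Fin (r + 1)) :
    Nat.card {f : LEn (HG (r + 1)) (2 * (r + 1)) // ((f.1 (a i) : Fin (2 * (r + 1))) : ℕ) = 0} ≤
      (2 * r + 1) * Fintype.card (LEn (HG r) (2 * r)) := by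
  classical
  have hb : ∀ f : {f : LEn (HG (r + 1)) (2 * (r + 1)) //
      ((f.1 (a i) : Fin (2 * (r + 1))) : ℕ) = 0}, 0 < ((f.1.1 (b i) : Fin (2 * (r + 1))) : ℕ) := by
    intro f
    have h : f.1.1 (b i) ≠ f.1.1 (a i) := fun h => by
      have := f.1.1.injective h
      simp at this
    have h2 : ((f.1.1 (b i) : Fin (2 * (r + 1))) : ℕ) ≠ ((f.1.1 (a i) : Fin (2 * (r + 1))) : ℕ) :=
      fun h3 => h (Fin.ext h3)
    rw [f.2] at h2
    omega
  let F : {f : LEn (HG (r + 1)) (2 * (r + 1)) // ((f.1 (a i) : Fin (2 * (r + 1))) : ℕ) = 0} →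
      Fin (2 * r + 1) × LEn (HG r) (2 * r) := fun f =>
    (⟨((f.1.1 (b i) : Fin (2 * (r + 1))) : ℕ) - 1, by
      have := (f.1.1 (b i)).2
      omega⟩, (exists_rk i f.1).choose)
  have hF : Function.Injective F := by
    intro f f' h
    have h1 : ((f.1.1 (b i) : Fin (2 * (r + 1))) : ℕ) - 1 =
        ((f'.1.1 (b i) : Fin (2 * (r + 1))) : ℕ) - 1 := congrArg (fun p => (p.1 : ℕ)) h
    have h2 : (exists_rk i f.1).choose = (exists_rk i f'.1).choose := congrArg Prod.snd h
    have e1 := (exists_rk i f.1).choose_spec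
    have e2 := (exists_rk i f'.1).choose_spec
    rw [h2] at e1
    apply Subtype.ext
    apply Subtype.ext
    refine det f.1.1 f'.1.1 {a i, b i} ?_ ?_
    · rintro x (rfl | rfl)
      · exact Fin.ext (by rw [f.2, f'.2])
      · apply Fin.ext
        have := hb f
        have := hb f'
        omega
    · intro x y hx hy hxy
      simp only [Set.mem_insert_iff, Set.mem_singleton_iff, not_or] at hx hy
      obtain ⟨x, rfl⟩ := emb_surj i x hx.1 hx.2
      obtain ⟨y, rfl⟩ := emb_surj i y hy.1 hy.2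
      exact (e2 x y).1 ((e1 x y).2 hxy)
  have hc := Nat.card_le_card_of_injective F hF
  rw [Nat.card_prod, Nat.card_eq_fintype_card (α := Fin (2 * r + 1)),
    Nat.card_eq_fintype_card (α := LEn (HG r) (2 * r)), Fintype.card_fin] at hc
  exact hc

end Pool.Agent.H581.KS
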