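import Pool.Agent.H34.L.H581.KS.Half
import Pool.Agent.H34.L.H581.KS.AB
import Pool.Agent.H34.L.H581.KS.AA
import Pool.Agent.H34.L.H581.KS.Dual
import Pool.Agent.H34.L.H581.KS.WH
import Pool.Agent.H34.L.H581.KS.Cnt1
import Pool.Agent.H34.L.H581.KS.Cnt2
import Pool.Agent.H34.L.H581.KS.Cnt3

/-!
KS-HALF: the half graph as a building block.
-/

set_option autoImplicit false

namespace Pool.Agent.H581.KS

open Pool.Agent.H931R3.Bal HG

theorem ex_half {ε : ℝ} {r : ℕ} (hr : 1 ≤ r) (hε : 8 * (r : ℝ) ^ 2 * ε ≤ 1) :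
    Ex ε r (2 * r) {t | ((r : ℝ) + 1) / 8 ≤ t ∧ t ≤ 2 * r + 1 - ((r : ℝ) + 1) / 8} :=
  ex_half_of (fun i j h => pr_ab i j h) (fun i j h => pr_aa i j h) (fun x y => pr_dual x y)
    (fun x => ht_dual x) width_HG card_succ card_first (fun hn x hx t => card_at hn x hx t)
    (fun hn x c hc h => mean_ge hn x c hc h) hr hε

end Pool.Agent.H581.KS
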