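import Mathlib
import Pool.Agent.H34.L.H581.KS.Rec

/-! Iteration of the step and choice of the parameters. -/

set_option autoImplicit false

open Finset
namespace Pool.Agent.H581.KS

theorem inv_iter {ε : ℝ} (hε0 : 0 < ε) (hε1 : ε ≤ 1 / 100000) {n0 w0 : ℕ} (hn : 1 ≤ 8 * ε * n0)
    (h0 : Inv ε w0 n0) (hw0 : 320 * ε * n0 ≤ w0) (L : ℕ) (X : ℝ)
    (hX : (n0 : ℝ) * (1 + 5000 * ε) ^ L ≤ X) (hX1 : 8 * (320 * ε * X + 1) ^ 2 * ε ≤ 1)
    (hX2 : 1600000 * ε ^ 2 * X ≤ 1) : ∀ i : ℕ, i ≤ L → ∃ n : ℕ, n0 ≤ n ∧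
      (n : ℝ) ≤ n0 * (1 + 5000 * ε) ^ i ∧ Inv ε (w0 + i) n ∧
      320 * ε * n ≤ ((w0 + i : ℕ) : ℝ) := by
  intro i
  induction i with
  | zero =>
    intro _
    exact ⟨n0, le_rfl, by simp, h0, by simpa using hw0⟩
  | succ i ih =>
    intro hi
    obtain ⟨n, h1, h2, h3, h4⟩ := ih (by omega)
    have h1' : (n0 : ℝ) ≤ n := by exact_mod_cast h1
    have hb : (1 : ℝ) ≤ 1 + 5000 * ε := by linarith
    have hn0 : (0 : ℝ) ≤ n0 := Nat.cast_nonneg _
    have hnX : (n : ℝ) ≤ X := by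
      refine h2.trans (le_trans ?_ hX)
      exact mul_le_mul_of_nonneg_left (pow_le_pow_right₀ hb (by omega)) hn0
    have hnn : (0 : ℝ) ≤ n := Nat.cast_nonneg _
    have hen : 0 ≤ 320 * ε * n := by positivity
    obtain ⟨r, hr⟩ : ∃ r : ℕ, r = ⌈320 * ε * n⌉₊ := ⟨_, rfl⟩
    have hr1 : 320 * ε * n ≤ r := by rw [hr]; exact Nat.le_ceil _
    have hr2 : (r : ℝ) ≤ 320 * ε * n + 1 := by rw [hr]; exact (Nat.ceil_lt_add_one hen).le
    have hrw : r ≤ w0 + i := by rw [hr]; exact Nat.ceil_le.2 h4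
    have hr3 : 8 * (r : ℝ) ^ 2 * ε ≤ 1 := by
      refine le_trans ?_ hX1
      apply mul_le_mul_of_nonneg_right _ hε0.le
      apply mul_le_mul_of_nonneg_left _ (by norm_num)
      apply pow_le_pow_left₀ (Nat.cast_nonneg _)
      refine hr2.trans ?_
      have : 320 * ε * (n : ℝ) ≤ 320 * ε * X := mul_le_mul_of_nonneg_left hnX (by positivity)
      linarith
    obtain ⟨n', g1, g2, g3⟩ := inv_step hε0 hε1 (n := n) (by
      have : 8 * ε * (n0 : ℝ) ≤ 8 * ε * n := mul_le_mul_of_nonneg_left h1' (by positivity)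
      linarith) hr1 hr2 hr3 hrw h3
    refine ⟨n', by omega, ?_, g3, ?_⟩
    · refine g2.trans ?_
      rw [pow_succ, ← mul_assoc]
      exact mul_le_mul_of_nonneg_right h2 (by linarith)
    · push_cast at h4 ⊢
      have e1 : 320 * ε * (n' : ℝ) ≤ 320 * ε * (n * (1 + 5000 * ε)) :=
        mul_le_mul_of_nonneg_left g2 (by positivity)
      have e2 : 1600000 * ε ^ 2 * (n : ℝ) ≤ 1600000 * ε ^ 2 * X :=
        mul_le_mul_of_nonneg_left hnX (by positivity)
      have e3 : 320 * ε * ((n : ℝ) * (1 + 5000 * ε)) = 320 * ε * n + 1600000 * ε ^ 2 * n := by ring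
      linarith

theorem exists_ex (w : ℕ) (hw : 14641 ≤ w) :
    ∃ (n : ℕ) (S : Set ℝ), Ex (Real.log w / (20000 * w)) w n S := by
  have hw0 : (0 : ℝ) < w := by
    have : (14641 : ℝ) ≤ w := by exact_mod_cast hw
    linarith
  have hwR : (14641 : ℝ) ≤ w := by exact_mod_cast hw
  obtain ⟨z, hz⟩ : ∃ z : ℝ, z = Real.exp (Real.log w / 4) := ⟨_, rfl⟩
  have hz0 : 0 < z := by rw [hz]; exact Real.exp_pos _
  have hz4 : z ^ 4 = w := by
    rw [hz, ← Real.exp_nat_mul]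
    rw [show ((4 : ℕ) : ℝ) * (Real.log w / 4) = Real.log w by push_cast; ring]
    exact Real.exp_log hw0
  have hz11 : 11 ≤ z := by
    by_contra hc
    push Not at hc
    have : z ^ 4 < 11 ^ 4 := pow_lt_pow_left₀ hc hz0.le (by norm_num)
    rw [hz4] at this
    norm_num at this
    linarith
  have hlog : Real.log w ≤ 4 * z := by
    have h1 : Real.log w / 4 + 1 ≤ z := by rw [hz]; exact Real.add_one_le_exp _
    linarith
  have hlog0 : 0 < Real.log w := Real.log_pos (by linarith)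
  obtain ⟨ε, hε⟩ : ∃ ε : ℝ, ε = Real.log w / (20000 * w) := ⟨_, rfl⟩
  have hε0 : 0 < ε := by rw [hε]; positivity
  have hεz : ε * (5000 * z ^ 3) ≤ 1 := by
    rw [hε, div_mul_eq_mul_div, div_le_one (by positivity)]
    have : Real.log w * (5000 * z ^ 3) ≤ 4 * z * (5000 * z ^ 3) :=
      mul_le_mul_of_nonneg_right hlog (by positivity)
    have e : 4 * z * (5000 * z ^ 3) = 20000 * z ^ 4 := by ring
    rw [e, hz4] at this
    exact this
  have hz3 : (1331 : ℝ) ≤ z ^ 3 := by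
    have := pow_le_pow_left₀ (by norm_num : (0 : ℝ) ≤ 11) hz11 3
    norm_num at this
    linarith
  have hε1 : ε ≤ 1 / 100000 := by nlinarith
  rw [← hε]
  have hwε : 5000 * ε * w = Real.log w / 4 := by
    rw [hε]
    field_simp
    ring
  obtain ⟨n0, hn0⟩ : ∃ n0 : ℕ, n0 = ⌈1 / (8 * ε)⌉₊ := ⟨_, rfl⟩
  have hn1 : 1 / (8 * ε) ≤ n0 := by rw [hn0]; exact Nat.le_ceil _
  have hn2 : (n0 : ℝ) ≤ 1 / (8 * ε) + 1 := by
    rw [hn0]; exact (Nat.ceil_lt_add_one (by positivity)).le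
  have hn3 : 1 ≤ 8 * ε * n0 := by
    rw [div_le_iff₀ (by positivity)] at hn1
    linarith
  have hn4 : ε * n0 ≤ 0.126 := by
    have h1 : ε * n0 ≤ ε * (1 / (8 * ε) + 1) := mul_le_mul_of_nonneg_left hn2 hε0.le
    have h2 : ε * (1 / (8 * ε) + 1) = 1 / 8 + ε := by field_simp
    rw [h2] at h1
    norm_num at hε1 ⊢
    linarith
  have hn5 : 0 ≤ ε * (n0 : ℝ) := by positivity
  obtain ⟨r, hr⟩ : ∃ r : ℕ, r = ⌈320 * ε * n0⌉₊ := ⟨_, rfl⟩
  have hr1 : 320 * ε * n0 ≤ r := by rw [hr]; exact Nat.le_ceil _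
  have hr2 : (r : ℝ) ≤ 320 * ε * n0 + 1 := by
    rw [hr]; exact (Nat.ceil_lt_add_one (by positivity)).le
  have hr42 : (r : ℝ) ≤ 42 := by
    have : 320 * ε * (n0 : ℝ) = 320 * (ε * n0) := by ring
    rw [this] at hr2
    norm_num at hn4
    linarith
  have hr0 : (0 : ℝ) ≤ r := Nat.cast_nonneg _
  have hrw : r ≤ w := by
    have : (r : ℝ) ≤ w := by linarith
    exact_mod_cast this
  have hr3 : 8 * (r : ℝ) ^ 2 * ε ≤ 1 := by
    have h1 : (r : ℝ) ^ 2 ≤ 42 ^ 2 := pow_le_pow_left₀ hr0 hr42 2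
    nlinarith
  have hbase := inv_base hε0 hε1 hn3 hr1 hr2 hr3
  have hpow : (1 + 5000 * ε) ^ (w - r) ≤ z := by
    have h1 : (1 + 5000 * ε) ^ (w - r) ≤ (1 + 5000 * ε) ^ w :=
      pow_le_pow_right₀ (by linarith) (by omega)
    refine h1.trans ?_
    have h2 : 1 + 5000 * ε ≤ Real.exp (5000 * ε) := by
      have := Real.add_one_le_exp (5000 * ε)
      linarith
    refine (pow_le_pow_left₀ (by positivity) h2 w).trans ?_
    rw [← Real.exp_nat_mul, mul_comm, hwε, hz]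
  have hX : (n0 : ℝ) * (1 + 5000 * ε) ^ (w - r) ≤ n0 * z :=
    mul_le_mul_of_nonneg_left hpow (Nat.cast_nonneg _)
  have hX1 : 8 * (320 * ε * (n0 * z) + 1) ^ 2 * ε ≤ 1 := by
    have h1 : 320 * ε * (n0 * z) + 1 ≤ 42 * z := by
      have e : 320 * ε * (n0 * z) = 320 * (ε * n0) * z := by ring
      rw [e]
      have : 320 * (ε * n0) * z ≤ 320 * 0.126 * z := by
        apply mul_le_mul_of_nonneg_right _ hz0.le
        linarith
      norm_num at this
      linarith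
    have h2 : (320 * ε * (n0 * z) + 1) ^ 2 ≤ (42 * z) ^ 2 :=
      pow_le_pow_left₀ (by positivity) h1 2
    have h3 : 8 * (320 * ε * (n0 * z) + 1) ^ 2 * ε ≤ 8 * (42 * z) ^ 2 * ε := by
      apply mul_le_mul_of_nonneg_right _ hε0.le
      linarith
    have h4 : 8 * (42 * z) ^ 2 * ε = 14112 * (z ^ 2 * ε) := by ring
    have h5 : z ^ 2 * ε * (55000 : ℝ) ≤ 1 := by
      refine le_trans ?_ hεz
      have : z ^ 2 * ε * 55000 ≤ z ^ 2 * ε * (5000 * z) := by
        apply mul_le_mul_of_nonneg_left _ (by positivity)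
        linarith
      refine this.trans (le_of_eq ?_)
      ring
    rw [h4] at h3
    linarith
  have hX2 : 1600000 * ε ^ 2 * (n0 * z) ≤ 1 := by
    have e : 1600000 * ε ^ 2 * (n0 * z) = 1600000 * (ε * n0) * (ε * z) := by ring
    rw [e]
    have h5 : ε * z * (605000 : ℝ) ≤ 1 := by
      refine le_trans ?_ hεz
      have : ε * z * 605000 ≤ ε * z * (5000 * z ^ 2) := by
        apply mul_le_mul_of_nonneg_left _ (by positivity)
        nlinarith
      refine this.trans (le_of_eq ?_)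
      ring
    have h6 : 1600000 * (ε * n0) * (ε * z) ≤ 1600000 * 0.126 * (ε * z) := by
      apply mul_le_mul_of_nonneg_right _ (by positivity)
      linarith
    norm_num at h6
    linarith
  obtain ⟨n, -, -, h3, -⟩ := inv_iter hε0 hε1 hn3 hbase hr1 (w - r) (n0 * z) hX hX1 hX2 (w - r)
    le_rfl
  obtain ⟨S, h4, -, -⟩ := h3
  rw [show r + (w - r) = w by omega] at h4
  exact ⟨n, S, h4⟩

end Pool.Agent.H581.KS
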